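import Pool.Agent.MP_f21dda_al.Mg.H92_Univ

namespace Pool.Agent.Results.MP_f21dda_al.BoundedEngel

open Pool.Agent.MP_f21dda_al.H92

/-- In a right-ordered group the boundedly Engel elements form a subgroup. -/
theorem result {G : Type*} [Group G] [LinearOrder G]
    (hord : ∀ a b c : G, a < b → a * c < b * c) :
    ∃ B : Subgroup G, ∀ g : G,
      g ∈ B ↔ ∃ k : ℕ, 1 ≤ k ∧ ∀ h : G, (fun y : G => y⁻¹ * g⁻¹ * y * g)^[k] h = 1 := by
  have hle : ∀ a b c : G, a ≤ b → a * c ≤ b * c := fun a b c h =>
    h.eq_or_lt.elim (fun h => by rw [h]) fun h => (hord a b c h).le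
  have hP : ∀ {n : ℕ} {a b : G}, IsEng n a → IsEng n b → ∀ {f : G},
      f ∈ Subgroup.closure {a, b} → ∃ m, 1 ≤ m ∧ IsEng m f := by
    intro n a b ha hb f hf
    obtain ⟨m, hm⟩ := isEng_of_mem_closure_univ (fun a => 1 ≤ a) (fun a b ha hb => by
        have := hle _ _ b ha
        rw [one_mul] at this
        exact hb.trans this) (fun a => by
        rcases le_total 1 a with h | h
        · exact Or.inl h
        · have := hle _ _ a⁻¹ h
          rw [mul_inv_cancel, one_mul] at this
          exact Or.inr this) (fun a h h' => by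
        have := hle _ _ a h'
        rw [inv_mul_cancel, one_mul] at this
        exact le_antisymm this h) ha hb hf
    exact ⟨m + 1, by omega, hm⟩
  refine ⟨{ carrier := {g | ∃ n, 1 ≤ n ∧ IsEng n g⁻¹}
            one_mem' := ⟨1, le_rfl, fun x => by simp [eng]⟩
            mul_mem' := ?_
            inv_mem' := ?_ }, fun g => ?_⟩
  · rintro a b ⟨n, -, ha⟩ ⟨m, -, hb⟩
    refine hP (ha.mono (le_max_left n m)) (hb.mono (le_max_right n m)) ?_
    rw [mul_inv_rev]
    exact mul_mem (Subgroup.subset_closure (by simp)) (Subgroup.subset_closure (by simp))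
  · rintro a ⟨n, -, ha⟩
    exact hP ha ha (inv_mem (Subgroup.subset_closure (by simp)))
  · have : (fun y : G => y⁻¹ * g⁻¹ * y * g) = eng g⁻¹ := by
      funext y
      simp [eng, mul_assoc]
    rw [this]
    rfl

end Pool.Agent.Results.MP_f21dda_al.BoundedEngel
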